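import Pool.Agent.K1H62.IV.Stm
import Pool.Agent.K1H75.PG.BC

set_option autoImplicit false

/-! Project IV (helper62), pieces IC (equivariance) and ID (measurability). -/

namespace Pool.Agent.K1H4.IV

open Pool.Agent.W878.VC (Stp Fc Mdl Prm Gr SPO SLO Cmp)
open Pool.Agent.K1H62.IV
open Pool.Agent.K1H75.PG (fc_iff me_fc me_par)

section C

variable {A B : ℕ → ℕ → Prop} {σ : Equiv.Perm ℕ}

theorem co_iff (h : ∀ u v, B (σ u) (σ v) ↔ A u v) (u v : ℕ) : Co B (σ u) (σ v) ↔ Co A u v := by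
  unfold Co
  rw [h, σ.injective.ne_iff]

theorem ds_iff (h : ∀ u v, B (σ u) (σ v) ↔ A u v) (u v : ℕ) : Ds B (σ u) (σ v) ↔ Ds A u v := by
  unfold Ds
  rw [← σ.forall_congr_right]
  simp only [h]

theorem us_iff (h : ∀ u v, B (σ u) (σ v) ↔ A u v) (u v : ℕ) : Us B (σ u) (σ v) ↔ Us A u v := by
  unfold Us
  rw [← σ.forall_congr_right]
  simp only [h]

theorem f0_iff (h : ∀ u v, B (σ u) (σ v) ↔ A u v) (u v : ℕ) : f0 B (σ u) (σ v) ↔ f0 A u v := by
  unfold f0
  simp only [ds_iff h, us_iff h]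

theorem f1_iff (h : ∀ u v, B (σ u) (σ v) ↔ A u v) (u v : ℕ) : f1 B (σ u) (σ v) ↔ f1 A u v := by
  unfold f1
  simp only [ds_iff h, us_iff h]

theorem ori_iff (h : ∀ u v, B (σ u) (σ v) ↔ A u v) (p : Fin 2 → ℕ) (u v : ℕ) :
    ori B (⇑σ ∘ p) (σ u) (σ v) ↔ ori A p u v := by
  unfold ori
  simp only [Function.comp]
  rw [co_iff h, fc_iff (co_iff h)]

end C

/-- **(c)** -/
theorem t_IC : S_IC := by
  intro A B σ p h
  exact ⟨fun u v => f0_iff (ori_iff h p) u v, fun u v => f1_iff (ori_iff h p) u v,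
    fun u v => ori_iff h p u v, co_iff h _ _⟩

section D

variable {Ω : Type*} [MeasurableSpace Ω] {R : Ω → ℕ → ℕ → Prop}

theorem me_co (hR : ∀ u v, MeasurableSet {q | R q u v}) (u v : ℕ) :
    MeasurableSet {q | Co (R q) u v} :=
  (MeasurableSet.const (u ≠ v)).inter (hR u v).compl

theorem me_ds (hR : ∀ u v, MeasurableSet {q | R q u v}) (u v : ℕ) :
    MeasurableSet {q | Ds (R q) u v} := by
  have he : {q | Ds (R q) u v} = ⋂ w, ({q | R q w u}ᶜ ∪ {q | R q w v}) := by
    ext q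
    simp only [Ds, Set.mem_ofPred_eq, Set.mem_iInter, Set.mem_union, Set.mem_compl_iff]
    exact forall_congr' fun w => imp_iff_not_or
  rw [he]
  exact MeasurableSet.iInter fun w => (hR w u).compl.union (hR w v)

theorem me_us (hR : ∀ u v, MeasurableSet {q | R q u v}) (u v : ℕ) :
    MeasurableSet {q | Us (R q) u v} := by
  have he : {q | Us (R q) u v} = ⋂ w, ({q | R q u w}ᶜ ∪ {q | R q v w}) := by
    ext q
    simp only [Us, Set.mem_ofPred_eq, Set.mem_iInter, Set.mem_union, Set.mem_compl_iff]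
    exact forall_congr' fun w => imp_iff_not_or
  rw [he]
  exact MeasurableSet.iInter fun w => (hR u w).compl.union (hR v w)

theorem me_f0 (hR : ∀ u v, MeasurableSet {q | R q u v}) (u v : ℕ) :
    MeasurableSet {q | f0 (R q) u v} :=
  ((me_ds hR u v).inter (me_ds hR v u).compl).union
    ((me_ds hR u v).inter ((me_ds hR v u).inter ((me_us hR v u).inter (me_us hR u v).compl)))

theorem me_f1 (hR : ∀ u v, MeasurableSet {q | R q u v}) (u v : ℕ) :
    MeasurableSet {q | f1 (R q) u v} :=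
  ((me_us hR v u).inter (me_us hR u v).compl).union
    ((me_us hR u v).inter ((me_us hR v u).inter ((me_ds hR u v).inter (me_ds hR v u).compl)))

end D

theorem me_A (u v : ℕ) : MeasurableSet {q : (ℕ → ℕ → Bool) × (Fin 2 → ℕ) | q.1 u v = true} := by
  have h : Measurable fun q : (ℕ → ℕ → Bool) × (Fin 2 → ℕ) => q.1 u v :=
    (measurable_pi_apply v).comp ((measurable_pi_apply u).comp measurable_fst)
  exact h (measurableSet_singleton true)

theorem me_f (i j : Fin 2) :
    Measurable fun q : (ℕ → ℕ → Bool) × (Fin 2 → ℕ) => (q.2 i, q.2 j) :=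
  ((measurable_pi_apply i).comp measurable_snd).prodMk
    ((measurable_pi_apply j).comp measurable_snd)

theorem me_ori (u v : ℕ) : MeasurableSet {q : (ℕ → ℕ → Bool) × (Fin 2 → ℕ) |
    ori (fun u v => q.1 u v = true) q.2 u v} := by
  have hA : ∀ u v, MeasurableSet {q : (ℕ → ℕ → Bool) × (Fin 2 → ℕ) |
      (fun u v => q.1 u v = true : ℕ → ℕ → Prop) u v} := me_A
  have hC := me_co hA
  have h2 : ∀ t, MeasurableSet {q : (ℕ → ℕ → Bool) × (Fin 2 → ℕ) |
      Fc (Co (fun u v => q.1 u v = true)) (q.2 0, q.2 1) t} := fun t =>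
    me_par (P := fun q s => Fc (Co (fun u v => q.1 u v = true)) s t) (me_f 0 1)
      (fun s => me_fc hC s t)
  exact (hC u v).inter (h2 (u, v))

/-- **(d)** -/
theorem t_ID : S_ID := by
  have hA : ∀ u v, MeasurableSet {q : (ℕ → ℕ → Bool) × (Fin 2 → ℕ) |
      (fun u v => q.1 u v = true : ℕ → ℕ → Prop) u v} := me_A
  have hC := me_co hA
  refine ⟨fun u v => ?_, fun u v => ?_, me_ori, ?_⟩
  · exact me_f0 (R := fun q : (ℕ → ℕ → Bool) × (Fin 2 → ℕ) => ori (fun u v => q.1 u v = true) q.2) me_ori u v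
  · exact me_f1 (R := fun q : (ℕ → ℕ → Bool) × (Fin 2 → ℕ) => ori (fun u v => q.1 u v = true) q.2) me_ori u v
  · exact me_par (P := fun q s => Co (fun u v => q.1 u v = true) s.1 s.2) (me_f 0 1)
        fun s => hC s.1 s.2

end Pool.Agent.K1H4.IV
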